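import Pool.Agent.Y254.HK.StmG

/-!
# Project HK, general coefficient: the statements `S_A2G` and `S_K1G`

The file of helper888 (job HK-A2K1) with a general coefficient of the deficiency.
-/

set_option autoImplicit false

open Finset
open scoped Classical

namespace Pool.Agent.Y51.HKG
open Pool.Agent.W904.AK Pool.Agent.W46.HD Pool.Agent.W46.HM Pool.Agent.Y244.HM
  Pool.Agent.W597.HD Pool.Agent.Y254HK

theorem t_a2g : S_A2G := by
  intro d b G _hb _hG
  refine ⟨5, by norm_num, ?_⟩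
  intro n Ω _ A D _hfam p S E C0 _hp Θ _ q l1 l2 l3 s0 s1 t t' τ v hc hg hE hC0 _hOr
  have hq := hc.law
  obtain ⟨Y, hY⟩ : ∃ Y : Θ → ℤ, Y = YY s0 s1 t t' := ⟨_, rfl⟩
  obtain ⟨X, hX⟩ : ∃ X : Θ → ℤ × (Fin d → ℤ), X = XX A D l1 l3 s0 s1 t t' := ⟨_, rfl⟩
  have hXd : ∀ x y, l1 x = l1 y → l3 x = l3 y → s1 x = s1 y → Y x = Y y → X x = X y := by
    intro x y h1 h2 h3 h4
    rw [hY] at h4
    simp only [hX, XX, h1, h2, h3, h4]
  have hPd : ∀ x y, l1 x = l1 y → t x = t y →
      cell A D (t x) (l1 x) = cell A D (t y) (l1 y) := by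
    intro x y h1 h2
    rw [h1, h2]
  have hw : wT q l1 l3 s0 s1 t t' = Real.log n -
      (H q (fun z => (l1 z, l3 z, s0 z, s1 z, Y z, t z)) -
        H q (fun z => (l1 z, l3 z, s0 z, s1 z, Y z))) := by
    rw [hY]
    rfl
  have f6 : H q (fun z => ((s0 z, s1 z, t' z, Y z), t z)) ≤
      H q (fun z => (s0 z, s1 z, t' z, Y z)) + E := by
    rw [hY]
    exact hg.f6
  have f4 : H q (fun z => ((l1 z, X z, t z, t' z), cell A D (t' z) (l3 z))) ≤
      H q (fun z => (l1 z, X z, t z, t' z)) + E := by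
    rw [hX]
    exact hg.f4
  have fcA : 2 * H q (fun z => ((l1 z, X z), l3 z, t' z)) ≤
      H q (fun z => ((l1 z, X z), l3 z)) +
      H q (fun z => ((l1 z, X z), t' z, cell A D (t' z) (l3 z))) + Real.log n + E := by
    rw [hX]
    exact hg.fcA
  have d5 : H q (fun z => ((l1 z, l3 z, X z), s1 z)) ≤
      H q (fun z => (l1 z, l3 z, X z)) + E := by
    rw [hX]
    exact hg.fb.d5
  have r2 : H q (fun z => (l1 z, l3 z, s0 z, s1 z, Y z, t' z)) +
      H q (fun z => ((l1 z, X z), l3 z)) ≤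
      H q (fun z => ((l1 z, X z), l3 z, t' z)) + H q (fun z => (l1 z, l3 z, s0 z, s1 z, Y z)) :=
    submod' hq (by intro x y _ _ h; simp only [Prod.mk.injEq] at h ⊢; tauto)
      (by
        intro x y _ _ h
        simp only [Prod.mk.injEq] at h ⊢
        obtain ⟨h1, h2, h3, h4, h5⟩ := h
        exact ⟨⟨h1, hXd x y h1 h2 h4 h5⟩, h2⟩)
      (by intro x y _ _ h; simp only [Prod.mk.injEq] at h ⊢; tauto)
  have r3 : H q (fun z => (l1 z, l3 z, s0 z, s1 z, Y z, t z)) +
      H q (fun z => (s0 z, s1 z, t' z, Y z)) ≤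
      H q (fun z => (l1 z, l3 z, s0 z, s1 z, Y z, t' z)) +
      H q (fun z => ((s0 z, s1 z, t' z, Y z), t z)) :=
    submod' hq (by intro x y _ _ h; simp only [Prod.mk.injEq] at h ⊢; tauto)
      (by intro x y _ _ h; simp only [Prod.mk.injEq] at h ⊢; tauto)
      (by intro x y _ _ h; simp only [Prod.mk.injEq] at h ⊢; tauto)
  have r5 : H q (fun z => ((l1 z, X z), t' z, cell A D (t' z) (l3 z))) ≤
      H q (fun z => ((l1 z, X z, t z, t' z), cell A D (t' z) (l3 z))) :=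
    H_mono hq (by intro x y _ _ h; simp only [Prod.mk.injEq] at h ⊢; tauto)
  have r6 : H q (fun z => (l1 z, X z, t z, t' z)) +
      H q (fun z => (cell A D (t z) (l1 z), X z, t z)) ≤
      H q (fun z => ((cell A D (t z) (l1 z), X z, t z), t' z)) +
      H q (fun z => (l1 z, X z, t z)) :=
    submod' hq (by intro x y _ _ h; simp only [Prod.mk.injEq] at h ⊢; tauto)
      (by
        intro x y _ _ h
        simp only [Prod.mk.injEq] at h ⊢
        obtain ⟨h1, h2, h3⟩ := h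
        exact ⟨hPd x y h1 h3, h2, h3⟩)
      (by intro x y _ _ h; simp only [Prod.mk.injEq] at h ⊢; tauto)
  have r7 : H q (fun z => (l1 z, X z, t z)) ≤ H q (fun z => (l1 z, X z)) + H q t :=
    subadd hq (by intro x y _ _ h; simp only [Prod.mk.injEq] at h ⊢; tauto)
  have r8 := H_height hq t
  have r9 : H q (fun z => ((l1 z, X z), s1 z)) ≤ H q (fun z => ((l1 z, l3 z, X z), s1 z)) :=
    H_mono hq (by intro x y _ _ h; simp only [Prod.mk.injEq] at h ⊢; tauto)
  have r10 : H q (fun z => (l1 z, l3 z, X z)) ≤ H q (fun z => ((l1 z, X z), l3 z)) :=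
    H_mono hq (by intro x y _ _ h; simp only [Prod.mk.injEq] at h ⊢; tauto)
  rw [hw, ← hX]
  linarith

theorem t_k1g : S_K1G := by
  intro d b G _hb _hG
  refine ⟨2, by norm_num, ?_⟩
  intro n Ω _ A D _hfam p S E C0 _hp Θ _ q l1 l2 l3 s0 s1 t t' τ v hc hg hE hC0 _hOr
  have hq := hc.law
  have hPd : ∀ x y, l1 x = l1 y → s1 x = s1 y →
      cell A D (s1 x) (l1 x) = cell A D (s1 y) (l1 y) := by
    intro x y h1 h2
    rw [h1, h2]
  have fcB := hg.fcB
  have d1 := hg.fb.d1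
  have f5 := hc.f5
  unfold FcB at fcB
  have r2 : H q (fun z => ((l3 z, s1 z, cell A D (s1 z) (l1 z)), s0 z)) +
      H q (fun z => (l1 z, l3 z)) ≤
      H q (fun z => (l3 z, l1 z, s1 z)) + H q (fun z => ((l1 z, l3 z), s0 z)) :=
    submod' hq (by intro x y _ _ h; simp only [Prod.mk.injEq] at h ⊢; tauto)
      (by intro x y _ _ h; simp only [Prod.mk.injEq] at h ⊢; tauto)
      (by
        intro x y _ _ h
        simp only [Prod.mk.injEq] at h ⊢
        obtain ⟨⟨h1, h2, h3⟩, ⟨-, -⟩, h4⟩ := h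
        exact ⟨⟨h1, h3, hPd x y h2 h3⟩, h4⟩)
  have r3 : H q (fun z => (l1 z, l3 z, s0 z, s1 z)) + H q (fun z => (l3 z, l1 z)) ≤
      H q (fun z => (l3 z, l1 z, s1 z)) + H q (fun z => (l1 z, l3 z, s0 z)) :=
    submod' hq (by intro x y _ _ h; simp only [Prod.mk.injEq] at h ⊢; tauto)
      (by intro x y _ _ h; simp only [Prod.mk.injEq] at h ⊢; tauto)
      (by intro x y _ _ h; simp only [Prod.mk.injEq] at h ⊢; tauto)
  linarith

end Pool.Agent.Y51.HKG
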