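import Pool.Agent.Y254.HK.StmG
import Pool.Agent.Y705.HK.B1

/-!
# Project HK, general coefficient: the second inequality

The file of helper705 (job HK-B1) with a general coefficient of the deficiency.
-/

set_option autoImplicit false

open Finset
open scoped Classical

namespace Pool.Agent.Y51.HKG
open Pool.Agent.W904.AK Pool.Agent.W46.HD Pool.Agent.W46.HM Pool.Agent.Y244.HM
  Pool.Agent.Y254HK Pool.Agent.Y705.HK

theorem t_b1g (hW : S_WG) : S_B1G := by
  intro d b G hb hG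
  obtain ⟨CW, hCW, hW⟩ := hW d b G hb hG
  refine ⟨CW + 2 * (b + 1) + 1, by linarith, ?_⟩
  intro n Ω iΩ A D hfam p S E C0 hp Θ iΘ q l1 l2 l3 s0 s1 t t' τ v hc hg hE hC0 hO
  obtain ⟨-, -, -, -, -, w6⟩ :=
    hW n Ω iΩ A D hfam p S E C0 hp Θ iΘ q l1 l2 l3 s0 s1 t t' τ v hc hg hE hC0 hO
  have hq := hc.law
  have hi1 := hc.i1
  have hτ := hc.hτ
  have hsg := hg.fa.sg
  have hc3 := hg.fa.c3
  have hc1 := hg.fa.c1
  have hf8 : H q (fun z => ((τ z, cell A D (τ z) (l2 z), XX A D l1 l3 s0 s1 t t' z,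
      (WW A D l2 l3 s0 s1 t t' τ v z).1), WW A D l2 l3 s0 s1 t t' τ v z)) ≤
    H q (fun z => (τ z, cell A D (τ z) (l2 z), XX A D l1 l3 s0 s1 t t' z,
      (WW A D l2 l3 s0 s1 t t' τ v z).1)) + E := hg.f8
  have hwd : wG q l1 l2 l3 s0 s1 t t' τ v = Real.log n -
    (H q (fun z => (l1 z, l2 z, l3 z, s0 z, s1 z, v z, MM s0 s1 t t' τ v z, τ z)) -
    H q (fun z => (l1 z, l2 z, l3 z, s0 z, s1 z, v z, MM s0 s1 t t' τ v z))) := rfl
  have hWd : ∀ x y, v x = v y → MM s0 s1 t t' τ v x = MM s0 s1 t t' τ v y → l2 x = l2 y →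
      l3 x = l3 y → WW A D l2 l3 s0 s1 t t' τ v x = WW A D l2 l3 s0 s1 t t' τ v y := by
    intro x y h1 h2 h3 h4
    simp only [WW, h1, h2, h3, h4]
  have hWi : ∀ x y, v x = v y → WW A D l2 l3 s0 s1 t t' τ v x = WW A D l2 l3 s0 s1 t t' τ v y →
      MM s0 s1 t t' τ v x = MM s0 s1 t t' τ v y := by
    intro x y h1 h2
    have h3 := congrArg Prod.fst h2
    simp only [WW, h1] at h3
    linarith
  show 3 * aa p - 2 * hh A D p + 4 * Real.log n +
      (b - 1) * H q (WW A D l2 l3 s0 s1 t t' τ v) ≤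
    b * (hh A D p + Real.log n + H q (XX A D l1 l3 s0 s1 t t') -
      (H q (fun z => (l2 z, WW A D l2 l3 s0 s1 t t' τ v z, τ z,
        (XX A D l1 l3 s0 s1 t t' z).1)) -
      H q (fun z => (l2 z, WW A D l2 l3 s0 s1 t t' τ v z, τ z)))) +
    (H q (fun z => (l2 z, WW A D l2 l3 s0 s1 t t' τ v z, v z, s1 z)) -
      H q (fun z => (l2 z, WW A D l2 l3 s0 s1 t t' τ v z))) +
    (H q (fun z => ((l3 z, s1 z, cell A D (s1 z) (l1 z)), s0 z)) -
      H q (fun z => (l3 z, s1 z, cell A D (s1 z) (l1 z)))) +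
    8 * lam p - wT q l1 l3 s0 s1 t t' + (b + G - 1) * wG q l1 l2 l3 s0 s1 t t' τ v + _ * (E + C0)
  generalize wT q l1 l3 s0 s1 t t' = w at w6 ⊢
  rw [hwd] at w6 ⊢
  generalize MM s0 s1 t t' τ v = M at w6 hWd hWi ⊢
  generalize WW A D l2 l3 s0 s1 t t' τ v = W at hsg hc3 hf8 hWd hWi ⊢
  generalize XX A D l1 l3 s0 s1 t t' = X at hf8 ⊢
  have r1a : H q (fun z => (l1 z, l2 z, l3 z, s0 z, s1 z, v z, M z)) ≤
      H q (fun z => ((l2 z, l3 z, s0 z, s1 z, v z, W z), l1 z)) := H_mono hq (by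
    intro x y _ _ h
    simp only [Prod.mk.injEq] at h ⊢
    obtain ⟨⟨h1, h2, h3, h4, h5, h6⟩, h7⟩ := h
    exact ⟨h7, h1, h2, h3, h4, h5, hWi x y h5 h6⟩)
  have r1b : H q (fun z => ((l2 z, l3 z, s0 z, s1 z, v z, W z), l1 z)) +
      H q (fun z => (l2 z, l3 z, s0 z, s1 z)) ≤
      H q (fun z => (l2 z, l3 z, s0 z, s1 z, v z, W z)) +
      H q (fun z => ((l2 z, l3 z, s0 z, s1 z), l1 z)) :=
    submod' hq (by intro x y _ _ h; simp only [Prod.mk.injEq] at h ⊢; tauto)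
      (by intro x y _ _ h; simp only [Prod.mk.injEq] at h ⊢; tauto)
      (by intro x y _ _ h; simp only [Prod.mk.injEq] at h ⊢; tauto)
  have r1c : H q (fun z => (l2 z, l3 z, s0 z, s1 z, v z, W z)) +
      H q (fun z => (l3 z, s1 z, cell A D (s1 z) (l1 z))) ≤
      H q (fun z => (l2 z, l3 z, s1 z, v z, W z)) +
      H q (fun z => ((l3 z, s1 z, cell A D (s1 z) (l1 z)), s0 z)) :=
    submod' hq (by
      intro x y hx hy h
      simp only [Prod.mk.injEq] at h ⊢
      obtain ⟨h1, h2, h3, h4, h5⟩ := h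
      refine ⟨h2, h3, ?_⟩
      rw [hi1 x hx, hi1 y hy, h3, h1])
      (by intro x y _ _ h; simp only [Prod.mk.injEq] at h ⊢; tauto)
      (by intro x y _ _ h; simp only [Prod.mk.injEq] at h ⊢; tauto)
  have r1d : H q (fun z => (l2 z, l3 z, s1 z, v z, W z)) +
      H q (fun z => (W z, v z, cell A D (v z) (l2 z))) ≤
      H q (fun z => (l2 z, W z, v z, s1 z)) +
      H q (fun z => ((W z, v z, cell A D (v z) (l2 z)), l3 z)) :=
    submod' hq (by
      intro x y _ _ h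
      simp only [Prod.mk.injEq] at h ⊢
      obtain ⟨h1, h2, h3, h4⟩ := h
      exact ⟨h2, h3, by rw [h1, h3]⟩)
      (by intro x y _ _ h; simp only [Prod.mk.injEq] at h ⊢; tauto)
      (by intro x y _ _ h; simp only [Prod.mk.injEq] at h ⊢; tauto)
  have r1e : H q (fun z => (l2 z, W z)) = H q (fun z => (W z, l2 z)) :=
    H_congr hq (by intro x y _ _ h; simp only [Prod.mk.injEq] at h ⊢; tauto)
      (by intro x y _ _ h; simp only [Prod.mk.injEq] at h ⊢; tauto)
  have ku : H q (fun z => (l1 z, l2 z, l3 z, s0 z, s1 z, v z, M z, τ z)) +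
      H q (fun z => (W z, l2 z)) ≤
      H q (fun z => (l1 z, l2 z, l3 z, s0 z, s1 z, v z, M z)) + H q (fun z => (W z, l2 z, τ z)) :=
    submod' hq (by
      intro x y _ _ h
      simp only [Prod.mk.injEq] at h ⊢
      obtain ⟨h1, h2, h3, h4, h5, h6, h7⟩ := h
      exact ⟨hWd x y h6 h7 h2 h3, h2⟩)
      (by intro x y _ _ h; simp only [Prod.mk.injEq] at h ⊢; tauto)
      (by intro x y _ _ h; simp only [Prod.mk.injEq] at h ⊢; tauto)
  have kk : H q (fun z => (W z, l2 z, τ z)) + H q W ≤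
      H q (fun z => (W z, l2 z)) + H q (fun z => (W z, τ z)) :=
    submod' hq (by intro x y _ _ h; simp only [Prod.mk.injEq] at h ⊢; tauto)
      (by intro x y _ _ h; simp only [Prod.mk.injEq] at h ⊢; tauto)
      (by intro x y _ _ h; simp only [Prod.mk.injEq] at h ⊢; tauto)
  have orc := OCM d n Ω A D b G C0 hO Θ _ q l2 τ W hq
  have r3a : H q (fun z => (l2 z, W z, τ z, (X z).1)) +
      H q (fun z => (W z, τ z, cell A D (τ z) (l2 z))) ≤
      H q (fun z => (l2 z, W z, τ z)) +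
      H q (fun z => ((W z, τ z, cell A D (τ z) (l2 z)), (X z).1)) :=
    submod' hq (by
      intro x y _ _ h
      simp only [Prod.mk.injEq] at h ⊢
      obtain ⟨h1, h2, h3⟩ := h
      exact ⟨h2, h3, by rw [h1, h3]⟩)
      (by intro x y _ _ h; simp only [Prod.mk.injEq] at h ⊢; tauto)
      (by intro x y _ _ h; simp only [Prod.mk.injEq] at h ⊢; tauto)
  have r3b : H q (fun z => ((W z, τ z, cell A D (τ z) (l2 z)), (X z).1)) ≤
      H q (fun z => ((τ z, cell A D (τ z) (l2 z), X z, (W z).1), W z)) :=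
    H_mono hq (by
      intro x y _ _ h
      simp only [Prod.mk.injEq] at h ⊢
      obtain ⟨⟨h1, h2, h3, h4⟩, h5⟩ := h
      exact ⟨⟨h5, h1, h2⟩, by rw [h3]⟩)
  have r3c : H q (fun z => (τ z, cell A D (τ z) (l2 z), X z, (W z).1)) ≤
      H q (fun z => (τ z, cell A D (τ z) (l2 z))) + H q (fun z => (X z, (W z).1)) :=
    subadd hq (by intro x y _ _ h; simp only [Prod.mk.injEq] at h ⊢; tauto)
  have r3d : H q (fun z => (X z, (W z).1)) ≤ H q X + H q (fun z => (W z).1) :=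
    subadd hq (by intro x y _ _ h; simp only [Prod.mk.injEq] at h ⊢; tauto)
  have hht := H_height hq τ
  refine b1_alg G b (Real.log n) (lam p) (aa p) (hh A D p) E C0 CW w
    (Real.log n - (H q (fun z => (l1 z, l2 z, l3 z, s0 z, s1 z, v z, M z, τ z)) -
      H q (fun z => (l1 z, l2 z, l3 z, s0 z, s1 z, v z, M z))))
    (H q (fun z => (l1 z, l2 z, l3 z, s0 z, s1 z, v z, M z))) (H q (fun z => (W z, l2 z)))
    (H q W) (H q X) (H q (fun z => (W z, τ z)))
    (H q (fun z => (W z, τ z, cell A D (τ z) (l2 z))))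
    (H q (fun z => (W z, l2 z, τ z)) - H q (fun z => (W z, l2 z))) _ _ _
    hb hE hC0 w6 (by linarith) (by linarith) (by linarith) orc hG
    (by linarith)

end Pool.Agent.Y51.HKG
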